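import Pool.Agent.Helper83.CK.St

set_option autoImplicit false

/-!
# Project CK (MP_f663dd_lc): module D
-/

namespace Pool.Agent.Helper3.CK

open Pool.Agent.Helper83.CK Cardinal Set

universe u

theorem mD : StR.{u} → StH.{u} → StF.{u} → StD.{u} := by
  intro hR hH hF α γ hγ hB
  classical
  obtain ⟨F, hFB⟩ := hB
  obtain ⟨lo, wf⟩ := exists_wellFoundedLT α
  obtain ⟨r, hr⟩ := hR α
  obtain ⟨H, hHJ⟩ := hH γ hγ.le
  -- the surjection
  let Q : (ℕ → Bool) → (ℕ → Set ℕ) := fun y n => {m | y (Nat.pair n m) = true}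
  have hQ : ∀ S : ℕ → Set ℕ, ∃ y, Q y = S := by
    intro S
    refine ⟨fun k => decide ((Nat.unpair k).2 ∈ S (Nat.unpair k).1), ?_⟩
    funext n
    ext m
    simp [Q]
  -- enumerations
  have henum : ∀ s : Set α, s.Countable → s.Infinite →
      ∃ e : ℕ → α, Function.Injective e ∧ Set.range e = s := by
    intro s h1 h2
    have : Countable s := h1.to_subtype
    have : Infinite s := h2.to_subtype
    obtain ⟨eq⟩ : Nonempty (ℕ ≃ s) := by
      obtain ⟨d⟩ := nonempty_denumerable s
      exact ⟨(Denumerable.eqv s).symm⟩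
    refine ⟨fun n => (eq n : α), fun a b h => eq.injective (Subtype.ext h), ?_⟩
    ext x
    constructor
    · rintro ⟨n, rfl⟩
      exact (eq n).2
    · intro hx
      exact ⟨eq.symm ⟨x, hx⟩, by simp⟩
  choose e he1 he2 using henum
  let G : Set α → Set α → Set γ := fun s v =>
    {c | ∃ n : ℕ, ∃ (h1 : s.Countable) (h2 : s.Infinite), c = F (e s h1 h2 '' Q (r v) n)}
  refine ⟨fun t => H (G (t \ fst t) (fst t)), ?_⟩
  intro X hX
  rw [eq_univ_iff_forall]
  intro c
  have hXinf : X.Infinite := by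
    rw [← Set.infinite_coe_iff, Cardinal.infinite_iff, hX]
    exact hγ.le
  obtain ⟨hw1, hw2, hw3⟩ := hF α X hXinf
  have hsub : fst X ⊆ X := fun a ha => ha.1
  have hX' : #(X \ fst X : Set α) = #γ := by
    apply le_antisymm
    · rw [← hX]
      exact Cardinal.mk_le_mk_of_subset sdiff_subset
    · by_contra hlt
      push Not at hlt
      have h1 := Cardinal.mk_sdiff_add_mk hsub
      have h2 : #(fst X) ≤ ℵ₀ := Cardinal.le_aleph0_iff_set_countable.2 hw2
      have h3 : #(X \ fst X : Set α) + #(fst X) < #γ :=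
        Cardinal.add_lt_of_lt hγ.le hlt (lt_of_le_of_lt h2 hγ)
      rw [h1, hX] at h3
      exact lt_irrefl _ h3
  obtain ⟨s0, hs0, hs0c, hs0H⟩ := hHJ _ (hFB _ hX') c
  have hs0cnt : s0.Countable := Cardinal.le_aleph0_iff_set_countable.1 hs0c.le
  have hs0ne : s0.Nonempty := by
    by_contra hne
    rw [Set.not_nonempty_iff_eq_empty] at hne
    rw [hne, Cardinal.mk_emptyCollection] at hs0c
    exact Cardinal.aleph0_ne_zero hs0c.symm
  obtain ⟨σ, hσ⟩ := hs0cnt.exists_eq_range hs0ne
  have hσm : ∀ n, ∃ t : Set α, t ∈ Om (X \ fst X) ∧ F t = σ n := by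
    intro n
    have : σ n ∈ s0 := hσ ▸ Set.mem_range_self n
    exact hs0 this
  choose sn hsn1 hsn2 using hσm
  set S : Set α := ⋃ n, sn n with hS
  have hSsub : S ⊆ X \ fst X := Set.iUnion_subset fun n => (hsn1 n).1
  have hScnt : S.Countable := Set.countable_iUnion fun n =>
    Cardinal.le_aleph0_iff_set_countable.1 (hsn1 n).2.le
  have hSinf : S.Infinite := by
    have h0 : (sn 0).Infinite := by
      rw [← Set.infinite_coe_iff, Cardinal.infinite_iff, (hsn1 0).2]
    exact h0.mono (Set.subset_iUnion sn 0)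
  obtain ⟨y, hy⟩ := hQ fun n => (e S hScnt hSinf) ⁻¹' (sn n)
  have himg : ∀ n, e S hScnt hSinf '' (Q y n) = sn n := by
    intro n
    rw [hy]
    simp only
    rw [Set.image_preimage_eq_inter_range, he2, Set.inter_eq_left]
    exact Set.subset_iUnion sn n
  obtain ⟨v, hv1, hv2, hv3⟩ := hr (fst X) hw2 hw1 y
  obtain ⟨hfst, hdiff⟩ := hw3 v hv1 S hSsub hv2
  refine ⟨v ∪ S, ⟨?_, ?_⟩, ?_⟩
  · exact Set.union_subset (hv1.trans hsub) (hSsub.trans sdiff_subset)
  · have h1 : (v ∪ S).Countable := (hw2.mono hv1).union hScnt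
    have h2 : (v ∪ S).Infinite := hv2.mono Set.subset_union_left
    have : Countable (v ∪ S : Set α) := h1.to_subtype
    have : Infinite (v ∪ S : Set α) := h2.to_subtype
    exact Cardinal.mk_eq_aleph0 _
  · simp only
    rw [hfst, hdiff]
    have hG : G S v = s0 := by
      rw [hσ]
      ext x
      constructor
      · rintro ⟨n, h1, h2, rfl⟩
        rw [hv3, himg, hsn2]
        exact ⟨n, rfl⟩
      · rintro ⟨n, rfl⟩
        refine ⟨n, hScnt, hSinf, ?_⟩
        rw [hv3, himg, hsn2]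
    rw [hG]
    exact hs0H

end Pool.Agent.Helper3.CK
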